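import Pool.Agent.Helper85.PCP.Stmts

/-!
# GOOD: the tracks of a V-tag system are good (MP_e4662f_lc)
-/

namespace PCP4

theorem good_getD {l : List Bool} {i : ℕ} (h : l.getD i true = false) : l.getD i false = false := by
  rw [List.getD_eq_getElem?_getD] at h ⊢
  cases hl : l[i]? with
  | none => rfl
  | some x => rw [hl] at h; exact h

theorem good_tail (l : List Bool) (i : ℕ) : l.tail.getD i false = l.getD (i + 1) false := by
  cases l with
  | nil => rfl
  | cons a l => rfl

theorem good_dropLast {l : List Bool} {i : ℕ} (h : l.getD i false = false) :
    l.dropLast.getD i false = false := by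
  rw [List.getD_eq_getElem?_getD] at h ⊢
  rw [List.getElem?_dropLast]
  split_ifs with hi
  · exact h
  · rfl

theorem good_rep (n i : ℕ) : (List.replicate n false).getD i false = false := by
  rw [List.getD_eq_getElem?_getD, List.getElem?_replicate]
  split_ifs <;> rfl

theorem st_GOOD (h1 : ST_WACT) (h2 : ST_WINI) : ST_GOOD := by
  intro V s A P D' a b ok
  obtain ⟨hL, _, _, _, hI⟩ := h2 V s A P D' a b ok
  have hA := ok.hA
  have hV := ok.hV
  have hs := ok.hs
  obtain ⟨m, hm⟩ : ∃ m, V * nu A = m := ⟨_, rfl⟩
  have hnu : nu A = 4 * A + 2 := rfl
  have hmA : 3 * (4 * A + 2) ≤ m := by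
    rw [← hm, hnu]
    exact Nat.mul_le_mul_right _ hV
  have heven : m % 2 = 0 := by
    rw [← hm, hnu]
    have : V * (4 * A + 2) = 2 * (V * (2 * A + 1)) := by ring
    rw [this]
    exact Nat.mul_mod_right _ _
  have hact : ∀ φ < m, φ % 2 ≠ 1 → φ ≠ 0 → m - φ ≤ 2 * A →
      (m - φ) / 2 - 1 < A ∧ φ + 2 * ((m - φ) / 2 - 1) + 2 = m := by
    intro φ hφ h3 h4 h5
    omega
  rw [hm] at hL hI
  have hlen : ∀ φ < m, (trk V s A P D' a b φ).length = 1 + (m - 1) * s := by
    intro φ hφ
    unfold trk
    rw [hm]
    split_ifs with h3 h4 h5
    · rw [List.length_replicate]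
    · rw [List.length_cons, List.length_append, List.length_replicate, List.length_dropLast, hL]
      obtain ⟨s', rfl⟩ : ∃ s', s = s' + 1 := ⟨s - 1, by omega⟩
      rw [Nat.add_sub_cancel, Nat.mul_succ]
      generalize (m - 1) * s' = y
      omega
    · obtain ⟨h6, _⟩ := hact φ hφ h3 h4 h5
      cases hp : P ((m - φ) / 2 - 1) with
      | none => simp only [List.length_replicate]
      | some p =>
        have h7 := (h1 V s A P D' a b ok _ h6 p hp).1
        simp only [List.length_tail]
        rw [h7, hm]
        omega
    · rw [List.length_replicate]
  rw [hm]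
  refine ⟨by omega, by omega, hlen, ?_, ?_⟩
  · unfold trk
    simp
  · intro φ hφ
    by_cases h3 : φ % 2 = 1
    · right
      intro q _ _ _
      unfold trk
      rw [if_pos h3]
      exact good_rep _ _
    · by_cases h4 : φ = 0
      · right
        intro q hq hq0 hdvd
        subst h4
        have hq1 : q ≠ 0 := by simpa using hq0
        rw [zero_add] at hdvd
        obtain ⟨j, hj⟩ := hdvd
        have hj0 : j ≠ 0 := by
          rintro rfl
          exact hq1 (by simpa using hj)
        obtain ⟨j', rfl⟩ : ∃ j', j = j' + 1 := ⟨j - 1, by omega⟩
        have hjs : j' < s := by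
          by_contra hc
          have h5 : (m - 1) * s ≤ (m - 1) * j' := Nat.mul_le_mul_left _ (by omega)
          rw [Nat.mul_succ] at hj
          omega
        have h5 := good_dropLast (good_getD (hI j' hjs))
        unfold trk
        rw [if_neg (by omega), if_pos rfl, hm]
        have h6 : q = (q - 1) + 1 := by omega
        rw [h6, List.getD_cons_succ]
        rw [Nat.mul_succ, mul_comm] at hj
        by_cases h7 : q - 1 < m - 2 * A
        · rw [List.getD_append _ _ _ _ (by rw [List.length_replicate]; exact h7)]
          exact good_rep _ _
        · rw [List.getD_append_right _ _ _ _ (by rw [List.length_replicate]; omega),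
            List.length_replicate]
          have h8 : q - 1 - (m - 2 * A) = j' * (m - 1) + 2 * A - 2 := by
            rw [hj]
            generalize j' * (m - 1) = y
            omega
          rw [h8]
          exact h5
      · by_cases h5 : m - φ ≤ 2 * A
        · obtain ⟨h6, h6'⟩ := hact φ hφ h3 h4 h5
          cases hp : P ((m - φ) / 2 - 1) with
          | none =>
            left
            refine ⟨h4, ?_⟩
            intro x hx
            unfold trk at hx
            rw [if_neg h3, if_neg h4, hm, if_pos h5, hp] at hx
            exact List.eq_of_mem_replicate hx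
          | some p =>
            right
            intro q hq _ hdvd
            have h7 := (h1 V s A P D' a b ok _ h6 p hp).2.2.2.2
            unfold trk
            rw [if_neg h3, if_neg h4, hm, if_pos h5, hp]
            show (letters A (Wact V s A p)).tail.getD q false = false
            rw [good_tail]
            obtain ⟨j, hj⟩ := hdvd
            have hj0 : j ≠ 0 := by
              rintro rfl
              rw [Nat.mul_zero] at hj
              omega
            obtain ⟨j', rfl⟩ : ∃ j', j = j' + 1 := ⟨j - 1, by omega⟩
            rw [Nat.mul_succ] at hj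
            have hjs : j' < s := by
              by_contra hc
              have h8 : (m - 1) * s ≤ (m - 1) * j' := Nat.mul_le_mul_left _ (by omega)
              omega
            have h8 := h7 j' hjs (2 * ((m - φ) / 2 - 1) + 2) (by omega)
            have h9 : q + 1 = j' * (V * nu A - 1) + (2 * ((m - φ) / 2 - 1) + 2) := by
              rw [hm, mul_comm j']
              generalize (m - 1) * j' = y at *
              omega
            rw [h9]
            exact good_getD h8
        · left
          refine ⟨h4, ?_⟩
          intro x hx
          unfold trk at hx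
          rw [if_neg h3, if_neg h4, hm, if_neg h5] at hx
          exact List.eq_of_mem_replicate hx

end PCP4
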